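import Pool.Agent.L7h29.TC.Tr
import Pool.Agent.TH571.WX.Sym
import Pool.Agent.Y227.UD.Final

set_option autoImplicit false

open Polynomial Pool.Agent.W432.PC Pool.Agent.W432.TC Pool.Agent.TH571.GP
open Pool.Agent.R927 Pool.Agent.L7h29.TC
open Pool.Agent.W77.IM (CoordRing)
open Pool.Agent.N858.PB (BadModelClasses)

/-!
# Flat bundles on curves and systems with generic exponents in the torus of a reductive group

Let `C` be a curve over a finitely generated field of characteristic zero with a finite map
`x : C → ℙ¹`, and let `(E, ∇)` be a flat bundle on `C` (or on an open part of `C`) such that the pull-back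
of a Fuchsian system `d/dx - ∑ j, A j / (x - α j)` on `ℙ¹` is, at the generic point, a subquotient of a
tensor power `E ^ ⊗ k`, `k ≥ 1`: for example of the bundle, of its determinant, or of an exterior or a
symmetric power. (If `x` is sufficiently ramified over the singular points the pull-back has no
singularities, so `C` may be a proper curve of any large genus.) The theorem says that (H) for `E` implies
that the system, so its pull-back, has only algebraic solutions, unless the exponents are in finitely many
torsion cosets which are at least as small as the families where the conclusion is known to be false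
(part 1, for the exponents of `GL r`, with a uniform gap for the density of the primes with nonvanishing
`p`-curvature), respectively of codimension at least 3 and for symmetric weights greater than the rank
(part 2, for residues with exponents in the torus of a reductive group).

Proof. The `p`-curvature of a quotient `W` of `E ^ ⊗ k` is given by that of `E`, modulo `p`, on the
lattice generated by the values of the multilinear map `E ^ k → W` (`L7h29/TC/Ten`), so its vanishing at `𝔪`
is inherited by this lattice and, for almost all `𝔪`, by the system (`R927/PB2`). Then our theorems on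
systems (`MP_ba03d2_ag.UniformDensity`, `MP_ba03d2_ag.SymmetricExponents`) apply.
-/

namespace Pool.Agent.Results.MP_0707f5_ag.TensorGenericExponents

universe u v w z

/-- The weights are, in some order, all the `e k`, `-e k` (given that they span) and possibly `0`. -/
def SymmetricWeights {r m : ℕ} (χ : Fin r → Fin m → ℤ) : Prop :=
  (∀ l, χ l = 0 ∨ ∃ k, χ l = Pi.single k 1 ∨ χ l = -Pi.single k 1) ∧ ∀ l, ∃ l', χ l' = -χ l

/-- There are (at least) `d` independent relations. -/
def HasRelations {I : Type*} (L : AddSubgroup (I → ℤ)) (d : ℕ) : Prop :=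
  ∃ v : Fin d → I → ℤ, LinearIndependent ℤ v ∧ ∀ k, v k ∈ L

/-- In both parts let `R` be a domain of characteristic zero, of finite type over `ℤ`, let `F` be a field
containing `R` (the function field of a curve) with an `R`-linear derivation `δ` and `δ t = 1`, let `V`
be a vector space over `F` with a connection `∇`, let `T ∈ R[t]` be nonzero and let `E ⊆ V` be a finitely
generated `R[t, 1/T]`-module which is stable under `∇` and generates `V` over the rational functions of
`t` (`IsModel`; a flat bundle on the part `T ≠ 0` of the curve, spread out over `Spec R`). Let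
`d/dt - ∑ j, A j / (t - α j)` be a system of rank `r` with `n` finite poles over `R`, with `α i - α j`
invertible for `i ≠ j`, whose pull-back is contained in a quotient of a tensor power of `(V, ∇)`
(`TensorPullback`). The accessory parameters are arbitrary.

First part. For every rank `r` and every number `n ≥ 2` of finite poles there are `ε > 0` and a
finite set `𝒟` of torsion cosets in the torus of exponents, each with at least `r + 1` independent
integral relations, such that for all systems with rational exponents (`lam j l`, the eigenvalues of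
`A j`, and `phi l`, the eigenvalues of `∑ j, A j`) with common denominator `N` one of the following
holds:

* the system has a fundamental matrix of algebraic solutions (`HasAlgebraicSolutions`);
* there are a set of at least `ε * φ(N)` residue classes modulo `N`, prime to `N`, and a nonzero `g` in
`R` such that the `p`-curvature of `E` is nonzero at all the closed points of `Spec R[1/g]` whose
residue characteristic is a large prime in one of these classes (`BadModelClasses`), and (H) fails for
`(E, ∇)`;
* the exponents are on one of the cosets in `𝒟`, and all their multiples by integers `a` prime to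
`N` satisfy the Weyl inequalities, together with their negatives.

Second part. Let `n ≥ 1` and let the weights `χ l ∈ ℤ ^ m`, `l < r`, be pairwise distinct and span
`ℚ ^ m`. The torus has the coordinates `x (p, k)`, `p` one of the `n + 1` singular points (`none` is the
point at infinity), `k < m`. There is a finite set `𝒟` of torsion cosets, such that

* each coset in `𝒟` is given by at least `min (m + 1) 3` independent relations, and by at least `m + 1`
if the weights are symmetric; one of the relations, `v ≠ 0`, does not involve all the points
(`v (p, ·) = 0` for some `p`);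
* for all systems whose exponents are the rational numbers `lam p l` (eigenvalues of `A j`, `p = some j`,
and of `-∑ j, A j`, `p = none`), with `lam p l = ∑ k, χ l k * x (p, k)` modulo `ℤ`, with common
denominator `N` of the `x (p, k)`, the point `x` is on one of the cosets in `𝒟`; or the system has a
fundamental matrix of algebraic solutions; or there are a residue class modulo `N`, prime to `N`, and a
nonzero `g ∈ R` such that the `p`-curvature of `E` is nonzero at all the closed points of `Spec R[1/g]`
whose residue characteristic is a large prime in that class (`BadModelMod`), and (H) fails for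
`(E, ∇)`. -/
theorem result (n r : ℕ) :
    (2 ≤ n →
      ∃ (ε : ℝ) (𝒟 : Finset (AddSubgroup (ExponentIndex n r → ℤ) × (ExponentIndex n r → ℚ))),
      0 < ε ∧ (∀ C ∈ 𝒟, HasRelations C.1 (r + 1)) ∧
      ∀ (R : Type u) [CommRing R] [IsDomain R] [CharZero R] [Algebra.FiniteType ℤ R]
        (F : Type v) [Field F] [Algebra R F] (δ : Derivation R F F) (t : F)
        (V : Type w) [AddCommGroup V] [Module F V] (nabla : V →+ V) (T : R[X])
        (E : Submodule (CoordRing t T R) V) (α : Fin n → R)
        (A : Fin n → Matrix (Fin r) (Fin r) R) (lam : Fin n → Fin r → ℚ) (phi : Fin r → ℚ) (N : ℕ),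
        Function.Injective (algebraMap R F) → δ t = 1 → T ≠ 0 → IsModel t T nabla E →
        TensorPullback.{u, v, w, z} α A δ t nabla →
        (∀ i j, i ≠ j → IsUnit (α i - α j)) →
        (∀ j, HasExponents (A j) (lam j)) → HasExponents (∑ j, A j) phi →
        0 < N → (∀ j l, ∃ m : ℤ, (N : ℚ) * lam j l = m) → (∀ l, ∃ m : ℤ, (N : ℚ) * phi l = m) →
        HasAlgebraicSolutions α A ∨ (BadModelClasses nabla E N ε ∧ ¬ HypH nabla E) ∨
          ((∃ C ∈ 𝒟, InCoset C.1 C.2 (fun i => ((Sum.elim (fun p => lam p.1 p.2) phi i : ℚ) : ℝ))) ∧
            ∀ a : ℤ, IsCoprime a (N : ℤ) → WeylBoth (fun i => (a : ℝ) *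
              ((Sum.elim (fun p => lam p.1 p.2) phi : ExponentIndex n r → ℚ) i : ℚ)))) ∧
    (0 < n → ∀ (m : ℕ) (χ : Fin r → Fin m → ℤ), Function.Injective χ →
      (∀ v : Fin m → ℚ, (∀ l, ∑ k, (χ l k : ℚ) * v k = 0) → v = 0) →
      ∃ 𝒟 : Finset (AddSubgroup (Option (Fin n) × Fin m → ℤ) × (Option (Fin n) × Fin m → ℚ)),
      (∀ C ∈ 𝒟, HasRelations C.1 (min (m + 1) 3) ∧
        (SymmetricWeights χ → HasRelations C.1 (m + 1)) ∧
        ∃ v ∈ C.1, v ≠ 0 ∧ ∃ p, ∀ k, v (p, k) = 0) ∧
      ∀ (R : Type u) [CommRing R] [IsDomain R] [CharZero R] [Algebra.FiniteType ℤ R]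
        (F : Type v) [Field F] [Algebra R F] (δ : Derivation R F F) (t : F)
        (V : Type w) [AddCommGroup V] [Module F V] (nabla : V →+ V) (T : R[X])
        (E : Submodule (CoordRing t T R) V) (α : Fin n → R)
        (A : Fin n → Matrix (Fin r) (Fin r) R)
        (lam : Option (Fin n) → Fin r → ℚ) (x : Option (Fin n) × Fin m → ℚ) (N : ℕ),
        Function.Injective (algebraMap R F) → δ t = 1 → T ≠ 0 → IsModel t T nabla E →
        TensorPullback.{u, v, w, z} α A δ t nabla →
        (∀ i j, i ≠ j → IsUnit (α i - α j)) →
        (∀ j, HasExponents (A j) (lam (some j))) →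
        HasExponents (∑ j, A j) (fun l => -lam none l) →
        (∀ p l, ∃ k : ℤ, lam p l - ∑ i, (χ l i : ℚ) * x (p, i) = k) →
        0 < N → (∀ i, ∃ k : ℤ, (N : ℚ) * x i = k) →
        (∃ C ∈ 𝒟, InCoset C.1 C.2 (fun i => ((x i : ℚ) : ℝ))) ∨ HasAlgebraicSolutions α A ∨
          (BadModelMod nabla E N ∧ ¬ HypH nabla E)) := by
  refine ⟨fun hn => ?_, fun hn m χ hχ hspan => ?_⟩
  · obtain ⟨ε, 𝒟, hε, h𝒟, h⟩ := Pool.Agent.Y227.UD.final.{u} n r hn
    refine ⟨ε, 𝒟, hε, h𝒟, ?_⟩
    intro R _ _ _ _ F _ _ δ t V _ _ nabla T E α A lam phi N hRF hx hT hE hpb hα hlam hphi hN hNlam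
      hNphi
    refine (h R α A lam phi N hα hlam hphi hN hNlam hNphi).imp id fun h1 => h1.imp (fun h2 => ?_) id
    obtain ⟨⟨S, g, P₀, hS, hg, h3⟩, h4⟩ := h2
    exact ⟨⟨S, hS, hpb.badModelFor hRF hx hT hE hg h3⟩,
      fun hH => h4 (hpb.condII hRF hx hT hE hH)⟩
  · obtain ⟨𝒟, h1, h2⟩ := Pool.Agent.TH571.WX.finalS.{u} n r m hn χ hχ hspan
    refine ⟨𝒟, fun C hC => ⟨(h1 C hC).1.1, (h1 C hC).2, (h1 C hC).1.2⟩, ?_⟩
    intro R _ _ _ _ F _ _ δ t V _ _ nabla T E α A lam x N hRF hx hT hE hpb hα hlam hphi hlx hN hNx
    refine (h2 R α A lam x N hα hlam hphi hlx hN hNx).imp id fun h3 => h3.imp id fun h4 => ?_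
    obtain ⟨⟨a, g, ha, hg, P₀, h5⟩, h6⟩ := h4
    exact ⟨hpb.badMod hRF hx hT hE ha hg h5, fun hH => h6 (hpb.condII hRF hx hT hE hH)⟩

end Pool.Agent.Results.MP_0707f5_ag.TensorGenericExponents
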