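import Pool.Agent.L7h29.TC.Tr
import Pool.Agent.TH141.PC.General

set_option autoImplicit false

open Polynomial Pool.Agent.W432.PC Pool.Agent.R927 Pool.Agent.L7h29.TC
open Pool.Agent.W77.IM (CoordRing)

/-!
# Flat bundles on curves and systems of any rank with many exponents modulo `ℤ`

Let `C` be a curve over a finitely generated field of characteristic zero with a finite map
`x : C → ℙ¹`, and let `(E, ∇)` be a flat bundle on `C` (or on an open part of `C`) such that the pull-back
of a Fuchsian system `d/dx - ∑ j, A j / (x - α j)` on `ℙ¹` is, at the generic point, a subquotient of a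
tensor power `E ^ ⊗ k`, `k ≥ 1`: for example of the bundle, of its determinant, or of an exterior or a
symmetric power. (If `x` is sufficiently ramified over the singular points the pull-back has no
singularities, so `C` may be a proper curve of any large genus.) We show that (H) fails for `E`, if the
system has sufficiently many exponents modulo `ℤ`.

Proof. 1. The `p`-th power of the connection of a quotient `W` of `V ^ ⊗ k` is, modulo `p`, given by the
`p`-curvature of `V`: a multilinear horizontal map `μ` satisfies
`∇ ^ p μ(e) = ∑ i, μ(…, ∇ ^ p (e i), …)` modulo `p` (the polynomial `(X 1 + … + X k) ^ p - ∑ X i ^ p` is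
divisible by `p`), see `L7h29/TC/Ten`. The lattice in `W` generated by the `μ(e)` is a model of `W`, so
the vanishing of the `p`-curvature at `𝔪` is inherited by this model. 2. It is inherited by the system, for
almost all `𝔪` (`R927/PB2`). 3. Our theorem on systems (`MP_ba03d2_ag.ManySingularPoints`: additive
combinatorics of the theorems of Chowla and Vosper and the Weyl inequalities).
-/

namespace Pool.Agent.Results.MP_0707f5_ag.TensorManyExponents

universe u v w z

/-- Let `R` be a domain of characteristic zero, of finite type over `ℤ`, let `F` be a field containing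
`R` (the function field of a curve) with an `R`-linear derivation `δ` and `δ x = 1`, let `V` be a vector
space over `F` with a connection `∇`, let `T ∈ R[x]` be nonzero and let `E ⊆ V` be a finitely generated
`R[x, 1/T]`-module which is stable under `∇` and generates `V` over the rational functions of `x`
(`IsModel`; a flat bundle on the part `T ≠ 0` of the curve, spread out over `Spec R`).

Let `d/dx - ∑ j, A j / (x - α j)` be a system of rank `r` with `n` finite poles over `R`, with
`α i - α j` invertible for `i ≠ j`, whose pull-back is contained in a quotient of a tensor power of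
`(V, ∇)` (`TensorPullback`). Let its exponents be `D (some j) l / N` at `α j` (the eigenvalues of `A j`)
and `D none l / N` at infinity (the eigenvalues of `-∑ j, A j`), `l < r`. Assume that the difference of
two of the integers `D x l` at the same point is prime to `N` or divisible by `N` (this is automatic if `N`
is a prime number), and that there is no resonance, that is, no sum of exponents, one at each point, is an
integer. Let `s x` be the number of exponents at `x` modulo `ℤ`, and assume that the sum of the `s x`, over
the points with `s x ≥ 2`, is larger than `N`.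

Then there are a residue class modulo `N`, prime to `N`, and a nonzero `g` in `R` such that the
`p`-curvature of `E` is nonzero at all the closed points of `Spec R[1/g]` whose residue characteristic is a
large prime in this class (`BadModelMod`). In particular (H) fails for `(E, ∇)`. -/
theorem result {R : Type u} [CommRing R] [IsDomain R] [CharZero R] [Algebra.FiniteType ℤ R]
    {F : Type v} [Field F] [Algebra R F] (hRF : Function.Injective (algebraMap R F))
    (δ : Derivation R F F) (x : F) (hx : δ x = 1) {V : Type w} [AddCommGroup V] [Module F V]
    (nabla : V →+ V) (T : R[X]) (hT : T ≠ 0) (E : Submodule (CoordRing x T R) V)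
    (hE : IsModel x T nabla E) {n r : ℕ} (α : Fin n → R) (hα : ∀ i j, i ≠ j → IsUnit (α i - α j))
    (A : Fin n → Matrix (Fin r) (Fin r) R)
    (hpb : TensorPullback.{u, v, w, z} α A δ x nabla) (N : ℕ) (hN : 1 < N)
    (D : Option (Fin n) → Fin r → ℤ)
    (hD : ∀ j, HasExponents (A j) (fun l => (D (some j) l : ℚ) / N))
    (hD' : HasExponents (∑ j, A j) (fun l => -(D none l : ℚ) / N))
    (h1 : ∀ x l l', IsCoprime (D x l - D x l') (N : ℤ) ∨ (N : ℤ) ∣ D x l - D x l')
    (h2 : ∀ κ : Option (Fin n) → Fin r, ¬ (N : ℤ) ∣ ∑ x, D x (κ x))
    (s : Option (Fin n) → ℕ)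
    (hs : ∀ x, (Finset.univ.image fun l => (D x l : ZMod N)).card = s x)
    (h3 : N < ∑ x ∈ Finset.univ.filter (fun x => 2 ≤ s x), s x) :
    BadModelMod nabla E N ∧ ¬ HypH nabla E := by
  obtain ⟨a, ha, P₀, hP⟩ := Pool.Agent.TH141.PC.many_exponents α hα A N hN D hD hD' h1 h2 s hs h3
  have h4 : ∀ p : ℕ, p.Prime → P₀ < p → (N : ℤ) ∣ a * p + 1 →
      ∀ (𝔪 : Ideal R) [𝔪.IsMaximal], (p : R) ∈ 𝔪 → (1 : R) ∉ 𝔪 → ¬ PCurvZeroAt α A 𝔪 :=
    fun p hp hpP hap 𝔪 _ hpm _ => hP p hp hpP hap 𝔪 hpm
  exact ⟨hpb.badMod hRF hx hT hE ha one_ne_zero h4, fun hH =>
    not_condII_of α A N (by omega) a ha ⟨1, one_ne_zero, P₀, h4⟩ (hpb.condII hRF hx hT hE hH)⟩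

end Pool.Agent.Results.MP_0707f5_ag.TensorManyExponents
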