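import Pool.Agent.L7h29.TC.Tr
import Pool.Agent.N128.SP.Final

set_option autoImplicit false

open Polynomial Pool.Agent.W432.PC Pool.Agent.R927 Pool.Agent.L7h29.TC
open Pool.Agent.W77.IM (CoordRing)
open Pool.Agent.N858.PB (BadModelClasses)

/-!
# Flat bundles on curves and orthogonal systems: an obstruction from the spin representation

Let `C` be a curve over a finitely generated field of characteristic zero with a finite map
`x : C → ℙ¹`, and let `(E, ∇)` be a flat bundle on `C` (or on an open part of `C`) such that the pull-back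
of a Fuchsian system `d/dx - ∑ j, A j / (x - α j)` on `ℙ¹` with skew-symmetric residues is, at the generic
point, a subquotient of a tensor power `E ^ ⊗ k`, `k ≥ 1`: for example of the bundle, or of an exterior or
a symmetric power. (If `x` is sufficiently ramified over the singular points the pull-back has no
singularities, so `C` may be a proper curve of any large genus.) If the `p`-curvature of `E` vanishes, that
of the spin system attached to the system vanishes too, although it is in general not a subquotient of a
tensor construction on `E`, and a nonzero second Stiefel-Whitney class is an obstruction: the theorem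
gives exponents for which the `p`-curvatures of `E` are nonzero for a positive proportion of the primes.

Proof. The `p`-curvature of a quotient `W` of `E ^ ⊗ k` is given by that of `E`, modulo `p`, on the
lattice generated by the values of the multilinear map `E ^ k → W` (`L7h29/TC/Ten`), so its vanishing at `𝔪`
is inherited by this lattice and, for almost all `𝔪`, by the system (`R927/PB2`). Then our theorem on
orthogonal systems (`MP_ba03d2_ag.OrthogonalSpinParity`) applies.
-/

namespace Pool.Agent.Results.MP_0707f5_ag.TensorSpinParity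

universe u v w z

/-- The eigenvalues of the `r × r` matrix `A` are the `μ i` and `-μ i`, `i < m`, and `r - 2 m` zeros
(eigenvalues with multiplicity, in an algebraic closure of the fraction field). -/
def SymExponents {R : Type u} [CommRing R] [IsDomain R] {r m : ℕ} (A : Matrix (Fin r) (Fin r) R)
    (μ : Fin m → ℚ) : Prop :=
  A.charpoly.map (algebraMap R (FractionRing R)) = X ^ (r - 2 * m) *
    ∏ i, (X - C ((μ i : ℚ) : FractionRing R)) * (X + C ((μ i : ℚ) : FractionRing R))

/-- `N` times the distance, in the sum norm, of the vector `(a / N) (e, e')` to the integer vector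
`(k, k')`. -/
def dist {n m : ℕ} (N : ℕ) (e : Fin n → Fin m → ℤ) (e' : Fin m → ℤ) (a : ℤ)
    (k : Fin n → Fin m → ℤ) (k' : Fin m → ℤ) : ℤ :=
  ∑ j, ∑ i, |a * e j i - N * k j i| + ∑ i, |a * e' i - N * k' i|

/-- There is a nonzero `g` in `R` such that the `p`-curvature of `E` is nonzero at all the closed points of
`Spec R[1/g]` whose residue characteristic is a large prime `p` with `a p = -1` modulo `B`. -/
def BadAt {R : Type u} [CommRing R] {F : Type v} [Field F] [Algebra R F] {V : Type w}
    [AddCommGroup V] [Module F V] {A : Subalgebra R F} (nabla : V →+ V) (E : Submodule A V) (B : ℕ)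
    (a : ℤ) : Prop :=
  ∃ g : R, g ≠ 0 ∧ ∃ P₀ : ℕ, ∀ p : ℕ, p.Prime → P₀ < p → (B : ℤ) ∣ a * p + 1 →
    ∀ 𝔪 : Ideal R, 𝔪.IsMaximal → (p : R) ∈ 𝔪 → g ∉ 𝔪 → ¬ VanishAt nabla E 𝔪

/-- For all `n` and `r` there is an `ε > 0` with the following property. Let `R` be a domain of
characteristic zero, of finite type over `ℤ`, let `F` be a field containing `R` (the function field of a
curve) with an `R`-linear derivation `δ` and `δ x = 1`, let `V` be a vector space over `F` with a
connection `∇`, let `T ∈ R[x]` be nonzero and let `E ⊆ V` be a finitely generated `R[x, 1/T]`-module which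
is stable under `∇` and generates `V` over the rational functions of `x` (`IsModel`; a flat bundle on the
part `T ≠ 0` of the curve, spread out over `Spec R`). Let `d/dx - ∑ j, A j / (x - α j)` be a system of
rank `r` with `n` finite poles over `R`, with `α i - α j` invertible for `i ≠ j`, whose pull-back is
contained in a quotient of a tensor power of `(V, ∇)` (`TensorPullback`). Assume that the residues `A j`
are skew-symmetric (an orthogonal system), with eigenvalues `± e j i / N` and zeros, and that the
eigenvalues of `∑ j, A j` are the `± e' i / N` and zeros (`i < m`).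

(1) Let `a` be an integer such that the vector of the `a e j i / N` and `a e' i / N` has distance less
than `1`, in the sum norm, from an integer vector with odd sum. Then for all large primes `p` with
`a p = -1` modulo `2 N` the `p`-curvature of `E` is nonzero at every closed point of `Spec R[1/g]` of
residue characteristic `p`, for some `g ≠ 0` (`BadAt`). If `a` is prime to `2 N`, this also holds for at
least `ε φ(2 N)` residue classes modulo `2 N` (`BadModelClasses`), and (H) fails for `(E, ∇)`.

(2) Let the sum of all the `e j i` and `e' i` be odd. If for some integer `a` prime to `N` the distance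
of `(a / N) (e, e')` to some integer vector is less than `1 / 2`, or less than `1` and `N` is even, then
the conclusion of (1) holds: the `p`-curvature of `E` is nonzero for at least `ε φ(2 N)` residue classes
modulo `2 N`, and (H) fails.

(3) Let the sum of all the `e j i` and `e' i` be odd. If all prime factors of `N` are larger than
`(2 M + 1) ^ M`, where `M = (n + 1) m`, then again the `p`-curvature of `E` is nonzero for at least
`ε φ(2 N)` residue classes modulo `2 N`, and (H) fails. -/
theorem result (n r : ℕ) : ∃ ε : ℝ, 0 < ε ∧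
    ∀ (R : Type u) [CommRing R] [IsDomain R] [CharZero R] [Algebra.FiniteType ℤ R]
      (F : Type v) [Field F] [Algebra R F] (δ : Derivation R F F) (x : F)
      (V : Type w) [AddCommGroup V] [Module F V] (nabla : V →+ V) (T : R[X])
      (E : Submodule (CoordRing x T R) V) (m : ℕ)
      (α : Fin n → R) (A : Fin n → Matrix (Fin r) (Fin r) R) (N : ℕ) (e : Fin n → Fin m → ℤ)
      (e' : Fin m → ℤ),
      Function.Injective (algebraMap R F) → δ x = 1 → T ≠ 0 → IsModel x T nabla E →
      TensorPullback.{u, v, w, z} α A δ x nabla →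
      (∀ i j, i ≠ j → IsUnit (α i - α j)) → (∀ j, (A j).transpose = -A j) →
      0 < N → (∀ j, SymExponents (A j) (fun i => (e j i : ℚ) / N)) →
      SymExponents (∑ j, A j) (fun i => (e' i : ℚ) / N) →
      (∀ (a : ℤ) (k : Fin n → Fin m → ℤ) (k' : Fin m → ℤ),
        Odd (∑ j, ∑ i, k j i + ∑ i, k' i) → dist N e e' a k k' < N →
        BadAt nabla E (2 * N) a ∧
        (IsCoprime a ((2 * N : ℕ) : ℤ) →
          BadModelClasses nabla E (2 * N) ε ∧ ¬ HypH nabla E)) ∧
      (Odd (∑ j, ∑ i, e j i + ∑ i, e' i) →
        (∀ (a : ℤ) (k : Fin n → Fin m → ℤ) (k' : Fin m → ℤ), IsCoprime a (N : ℤ) →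
          (2 * dist N e e' a k k' < N ∨ (Even N ∧ dist N e e' a k k' < N)) →
          BadModelClasses nabla E (2 * N) ε ∧ ¬ HypH nabla E) ∧
        ((∀ q : ℕ, q.Prime → q ∣ N → (2 * ((n + 1) * m) + 1) ^ ((n + 1) * m) < q) →
          BadModelClasses nabla E (2 * N) ε ∧ ¬ HypH nabla E)) := by
  obtain ⟨ε, hε, hd⟩ := Pool.Agent.N128.SP.density_fails.{u} n r
  refine ⟨ε, hε, ?_⟩
  intro R _ _ _ _ F _ _ δ x V _ _ nabla T E m α A N e e' hRF hx hT hE hpb hα hA hN he he'
  have h1 : ∀ (a : ℤ) (k : Fin n → Fin m → ℤ) (k' : Fin m → ℤ),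
      Odd (∑ j, ∑ i, k j i + ∑ i, k' i) → dist N e e' a k k' < N →
      BadAt nabla E (2 * N) a ∧
      (IsCoprime a ((2 * N : ℕ) : ℤ) → BadModelClasses nabla E (2 * N) ε ∧ ¬ HypH nabla E) := by
    intro a k k' hodd hk
    obtain ⟨P₀, hP⟩ := Pool.Agent.N128.SP.class_fails α hα A hA N hN e e' he he' a k k' hodd hk
    refine ⟨?_, fun ha => ⟨?_, fun hH => not_condII_of α A (2 * N) (by omega) a ha
      ⟨1, one_ne_zero, P₀, fun p hp hpP hap 𝔪 _ hpm _ => hP p hp hpP hap 𝔪 hpm⟩
      (hpb.condII hRF hx hT hE hH)⟩⟩
    · obtain ⟨g, hg, h2⟩ := hpb.transfer hRF hx hT hE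
      exact ⟨g, hg, P₀, fun p hp hpP hap 𝔪 h𝔪 hpm hm h3 => hP p hp hpP hap 𝔪 hpm (h2 𝔪 hm h3)⟩
    · obtain ⟨S, P₁, hS, h2⟩ := hd R m α hα A hA N hN e e' he he' a ha k k' hodd hk
      exact ⟨S, hS, hpb.badModelFor hRF hx hT hE one_ne_zero
        fun p hp hpP hv 𝔪 _ hpm _ => h2 p hp hpP hv 𝔪 hpm⟩
  have h2 : Odd (∑ j, ∑ i, e j i + ∑ i, e' i) →
      ∀ (a : ℤ) (k : Fin n → Fin m → ℤ) (k' : Fin m → ℤ), IsCoprime a (N : ℤ) →
        (2 * dist N e e' a k k' < N ∨ (Even N ∧ dist N e e' a k k' < N)) →
        BadModelClasses nabla E (2 * N) ε ∧ ¬ HypH nabla E := by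
    intro hsum a k k' ha hk
    obtain ⟨a₁, k₁, k₁', ha₁, hodd, hk₁⟩ := Pool.Agent.N128.SP.shift e e' hsum a k k' ha hk
    exact (h1 a₁ k₁ k₁' hodd hk₁).2 ha₁
  refine ⟨h1, fun hsum => ⟨h2 hsum, fun hrough => ?_⟩⟩
  obtain ⟨a, k, k', ha, hk⟩ := Pool.Agent.N128.SP.rough hN e e' hrough
  exact h2 hsum a k k' ha (Or.inl hk)

end Pool.Agent.Results.MP_0707f5_ag.TensorSpinParity
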