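import Pool.Agent.L7h29.TC.Tr
import Pool.Agent.Y227.RT.Final

set_option autoImplicit false

open Polynomial Pool.Agent.W432.PC Pool.Agent.W432.TC Pool.Agent.Y227.SS Pool.Agent.Y227.RT
open Pool.Agent.R927 Pool.Agent.L7h29.TC
open Pool.Agent.W77.IM (CoordRing)
open Pool.Agent.N858.PB (BadModelClasses)

/-!
# Flat bundles on curves and the weights of stable parabolic bundles

Let `C` be a curve over a finitely generated field of characteristic zero with a finite map
`x : C → ℙ¹`, and let `(E, ∇)` be a flat bundle on `C` (or on an open part of `C`) such that the pull-back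
of a Fuchsian system `d/dx - ∑ j, A j / (x - α j)` on `ℙ¹` is, at the generic point, a subquotient of a
tensor power `E ^ ⊗ k`, `k ≥ 1`: for example of the bundle, of its determinant, or of an exterior or a
symmetric power. (If `x` is sufficiently ramified over the singular points the pull-back has no
singularities, so `C` may be a proper curve of any large genus.) If the `p`-curvatures of `E` vanish for
more than the proportion `1 - ε` of the primes (`ε > 0` depends only on the rank `r` of the system and on
the number of its singular points), all the Galois conjugates of the exponents of the system are the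
weights of semistable parabolic bundles of degree zero on `ℙ¹`, and of stable ones if the system is
irreducible; for irreducible systems of rank two we determine the families of exponents of
codimension two which satisfy this condition.

Proof. The `p`-curvature of a quotient `W` of `E ^ ⊗ k` is given by that of `E`, modulo `p`, on the
lattice generated by the values of the multilinear map `E ^ k → W` (`L7h29/TC/Ten`), so its vanishing at `𝔪`
is inherited by this lattice and, for almost all `𝔪`, by the system (`R927/PB2`). Then our theorems on
systems (`MP_ba03d2_ag.StableDensity`, `MP_ba03d2_ag.RankTwoFamilies`) apply.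
-/

namespace Pool.Agent.Results.MP_0707f5_ag.TensorStableWeights

universe u v w z

/-- In both parts let `R` be a domain of characteristic zero, of finite type over `ℤ`, let `F` be a field
containing `R` (the function field of a curve) with an `R`-linear derivation `δ` and `δ x = 1`, let `V`
be a vector space over `F` with a connection `∇`, let `T ∈ R[x]` be nonzero and let `E ⊆ V` be a finitely
generated `R[x, 1/T]`-module which is stable under `∇` and generates `V` over the rational functions of
`x` (`IsModel`; a flat bundle on the part `T ≠ 0` of the curve, spread out over `Spec R`). Let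
`d/dx - ∑ j, A j / (x - α j)` be a system with `n` finite poles over `R`, with `α i - α j` invertible for
`i ≠ j`, with rational exponents `lam`, `phi` (the eigenvalues of the `A j` and of `∑ j, A j`) of common
denominator `N`, whose pull-back is contained in a quotient of a tensor power of `(V, ∇)`
(`TensorPullback`). The accessory parameters are arbitrary. `BadModelClasses nabla E N ε` says that there
are a set of at least `ε * φ(N)` residue classes modulo `N`, prime to `N`, and a nonzero `g` in `R` such
that the `p`-curvature of `E` is nonzero at all the closed points of `Spec R[1/g]` whose residue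
characteristic is a large prime in one of these classes.

First part, for systems of any rank `r`. There are `ε > 0` and a finite set `𝒟` of torsion cosets of the
torus of exponents, all of whose points are the weights of semistable parabolic bundles of parabolic
degree zero on the projective line over `ℂ`, such that:

(a) either the exponents are on one of the cosets in `𝒟` and all their multiples by integers prime to
`N` are the weights of semistable parabolic bundles of parabolic degree zero; or
`BadModelClasses nabla E N ε` holds and (H) fails for `(E, ∇)`;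

(b) if the system is irreducible over every field containing `R`, then either all the multiples of the
exponents by integers prime to `N` are the weights of stable parabolic bundles of parabolic degree
zero; or `BadModelClasses nabla E N ε` holds and (H) fails.

Second part, for systems of rank two which are irreducible over every field containing `R`, `n ≥ 1`.
There are `ε > 0` and a finite set `𝒟` of torsion cosets of codimension at least three in the torus
`(ℝ/ℤ) ^ (n + 1)` of the exponent differences `θ = theta lam phi`, such that one of the following holds: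

* (`Splits`) the singular points are divided into two complementary sets, each with at least two points,
such that, for suitable signs, the sums of the `± θ i` over both sets are integers;
* (`HalfSums`) there are two disjoint nonempty sets of singular points, together not all of them, such
that, for suitable signs, the sums of the `± θ i` over both sets are in `1/2 + ℤ`;
* `θ` is on one of the cosets in `𝒟`;
* `BadModelClasses nabla E N ε` holds and (H) fails for `(E, ∇)`. -/
theorem result (n r : ℕ) :
    (∃ (ε : ℝ) (𝒟 : Finset (AddSubgroup (ExponentIndex n r → ℤ) × (ExponentIndex n r → ℚ))),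
      0 < ε ∧
      (∀ C ∈ 𝒟, ∀ z : ExponentIndex n r → ℝ, InCoset C.1 C.2 z →
        SemistableWeights ℂ (fun j l => z (Sum.inl (j, l))) (fun l => z (Sum.inr l))) ∧
      ∀ (R : Type u) [CommRing R] [IsDomain R] [CharZero R] [Algebra.FiniteType ℤ R]
        (F : Type v) [Field F] [Algebra R F] (δ : Derivation R F F) (x : F)
        (V : Type w) [AddCommGroup V] [Module F V] (nabla : V →+ V) (T : R[X])
        (E : Submodule (CoordRing x T R) V) (α : Fin n → R)
        (A : Fin n → Matrix (Fin r) (Fin r) R) (lam : Fin n → Fin r → ℚ) (phi : Fin r → ℚ) (N : ℕ),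
        Function.Injective (algebraMap R F) → δ x = 1 → T ≠ 0 → IsModel x T nabla E →
        TensorPullback.{u, v, w, z} α A δ x nabla →
        (∀ i j, i ≠ j → IsUnit (α i - α j)) →
        (∀ j, HasExponents (A j) (lam j)) → HasExponents (∑ j, A j) phi →
        0 < N → (∀ j l, ∃ m : ℤ, (N : ℚ) * lam j l = m) → (∀ l, ∃ m : ℤ, (N : ℚ) * phi l = m) →
        (((∃ C ∈ 𝒟, InCoset C.1 C.2 (fun i => ((Sum.elim (fun p => lam p.1 p.2) phi i : ℚ) : ℝ))) ∧
          ∀ a : ℤ, IsCoprime a (N : ℤ) →
            SemistableWeights ℂ (fun j l => (a : ℝ) * lam j l) (fun l => (a : ℝ) * phi l)) ∨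
          (BadModelClasses nabla E N ε ∧ ¬ HypH nabla E)) ∧
        (AbsIrreducible α A →
          (∀ a : ℤ, IsCoprime a (N : ℤ) →
            StableWeights ℂ (fun j l => (a : ℝ) * lam j l) (fun l => (a : ℝ) * phi l)) ∨
          (BadModelClasses nabla E N ε ∧ ¬ HypH nabla E))) ∧
    (1 ≤ n →
      ∃ (ε : ℝ) (𝒟 : Finset (AddSubgroup (Option (Fin n) → ℤ) × (Option (Fin n) → ℚ))), 0 < ε ∧
      (∀ C ∈ 𝒟, ∃ k : Fin 3 → Option (Fin n) → ℤ, LinearIndependent ℤ k ∧ ∀ i, k i ∈ C.1) ∧
      ∀ (R : Type u) [CommRing R] [IsDomain R] [CharZero R] [Algebra.FiniteType ℤ R]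
        (F : Type v) [Field F] [Algebra R F] (δ : Derivation R F F) (x : F)
        (V : Type w) [AddCommGroup V] [Module F V] (nabla : V →+ V) (T : R[X])
        (E : Submodule (CoordRing x T R) V) (α : Fin n → R)
        (A : Fin n → Matrix (Fin 2) (Fin 2) R) (lam : Fin n → Fin 2 → ℚ) (phi : Fin 2 → ℚ) (N : ℕ),
        Function.Injective (algebraMap R F) → δ x = 1 → T ≠ 0 → IsModel x T nabla E →
        TensorPullback.{u, v, w, z} α A δ x nabla →
        (∀ i j, i ≠ j → IsUnit (α i - α j)) →
        (∀ j, HasExponents (A j) (lam j)) → HasExponents (∑ j, A j) phi →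
        0 < N → (∀ j l, ∃ m : ℤ, (N : ℚ) * lam j l = m) → (∀ l, ∃ m : ℤ, (N : ℚ) * phi l = m) →
        AbsIrreducible α A →
          (Splits (theta lam phi) ∨ HalfSums (theta lam phi) ∨
            ∃ C ∈ 𝒟, InCoset C.1 C.2 (fun i => (theta lam phi i : ℝ))) ∨
            (BadModelClasses nabla E N ε ∧ ¬ HypH nabla E)) := by
  refine ⟨?_, fun hn => ?_⟩
  · obtain ⟨ε, 𝒟, hε, h𝒟, h⟩ := uniform.{u} n r
    refine ⟨ε, 𝒟, hε, h𝒟, ?_⟩
    intro R _ _ _ _ F _ _ δ x V _ _ nabla T E α A lam phi N hRF hx hT hE hpb hα hlam hphi hN hNlam
      hNphi
    have h1 := h R α A lam phi N hα hlam hphi hN hNlam hNphi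
    refine ⟨h1.1.imp id fun h2 => ?_, fun hirr => (h1.2 hirr).imp id fun h2 => ?_⟩
    · exact ⟨hpb.badClasses hRF hx hT hE one_ne_zero h2.1,
        fun hH => h2.2 (hpb.condII hRF hx hT hE hH)⟩
    · obtain ⟨⟨g, hg, h3⟩, h4⟩ := h2
      exact ⟨hpb.badClasses hRF hx hT hE hg h3, fun hH => h4 (hpb.condII hRF hx hT hE hH)⟩
  · obtain ⟨ε, 𝒟, hε, h𝒟, h⟩ := rank_two.{u} n hn
    refine ⟨ε, 𝒟, hε, h𝒟, ?_⟩
    intro R _ _ _ _ F _ _ δ x V _ _ nabla T E α A lam phi N hRF hx hT hE hpb hα hlam hphi hN hNlam
      hNphi hirr
    refine (h R α A lam phi N hα hlam hphi hN hNlam hNphi hirr).imp id fun h2 => ?_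
    obtain ⟨⟨g, hg, h3⟩, h4⟩ := h2
    exact ⟨hpb.badClasses hRF hx hT hE hg h3, fun hH => h4 (hpb.condII hRF hx hT hE hH)⟩

end Pool.Agent.Results.MP_0707f5_ag.TensorStableWeights
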